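import Pool.Agent.H6.RandomProof

set_option autoImplicit false

namespace Pool.Agent.Results.MP_95a70f_lc.RandomFailure

open Cardinal Pool.Agent.H6.RandomNames

/-- The measure algebra of `2^(L × ω)` forces the failure of the polarized relation at the
(ground model) dominating number whenever `L` has at least that many elements; more generally at
every uncountable `X` with `|X| ≤ |L|`. -/
theorem result :
    (∀ L X : Type, #X = dom → dom < #L → RandomForcesFailure L X) ∧
    ∀ L X : Type, ℵ₀ < #X → #X ≤ #L → RandomForcesFailure L X := by
  have key : ∀ L X : Type, ℵ₀ < #X → #X ≤ #L → RandomForcesFailure L X := by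
    intro L X hX hL
    obtain ⟨j⟩ := Cardinal.le_def X L |>.1 hL
    exact failure L X j j.injective (Cardinal.aleph0_lt_mk_iff.1 hX)
  refine ⟨fun L X hX hL => key L X ?_ ?_, key⟩
  · rw [hX]; exact dom_uncountable
  · rw [hX]; exact hL.le

end Pool.Agent.Results.MP_95a70f_lc.RandomFailure
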